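import Pool.Agent.G9.Stmts

/-!
# Squad GNI, row FLD: the field with the Tits endomorphism
-/

set_option autoImplicit false

namespace Pool.Agent.G9.H3

open Finset Pool.Agent.G9

theorem three_pow_mod (k : ℕ) : 3 ^ (2 * k + 1) % 4 = 3 := by
  induction k with
  | zero => rfl
  | succ k ih =>
    have e : 3 ^ (2 * (k + 1) + 1) = 9 * 3 ^ (2 * k + 1) := by
      rw [show 2 * (k + 1) + 1 = 2 + (2 * k + 1) by ring, pow_add]
      norm_num
    rw [e]
    omega

theorem fld : FldStmt := by
  intro n hn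
  obtain ⟨k, rfl⟩ := hn
  have h3 : Fact (Nat.Prime 3) := ⟨Nat.prime_three⟩
  let F := GaloisField 3 (2 * k + 1)
  letI : Fintype F := Fintype.ofFinite F
  have hc : Fintype.card F = 3 ^ (2 * k + 1) := by
    rw [← Nat.card_eq_fintype_card]
    exact GaloisField.card 3 (2 * k + 1) (by omega)
  refine ⟨F, inferInstance, inferInstance, inferInstance, iterateFrobeniusEquiv F 3 (k + 1), hc,
    ?_, ?_⟩
  · intro x
    rw [iterateFrobeniusEquiv_def, iterateFrobeniusEquiv_def, ← pow_mul, ← pow_add]
    have e : 3 ^ (k + 1 + (k + 1)) = Fintype.card F * 3 := by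
      rw [hc, show k + 1 + (k + 1) = 2 * k + 1 + 1 by ring, pow_succ]
    rw [e, pow_mul, FiniteField.pow_card]
  · rw [hc]
    exact three_pow_mod k

end Pool.Agent.G9.H3
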